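import Pool.Agent.Work.MP_2738db_nt_C.Interface
import Mathlib

/-!
Block FAC of the COPRIME EXPONENTS theorem (MP_2738db): the factors of `v ^ k ± u ^ k = 2 A ^ l`.
-/

set_option autoImplicit false

namespace Pool.Agent.Work.MP_2738db_nt_C.helper17

open Finset

/-- the cofactor of `x - y` in `x ^ r - y ^ r` -/
def fcPs (r : ℕ) (x y : ℤ) : ℤ := ∑ i ∈ range r, x ^ i * y ^ (r - 1 - i)

lemma fcPs_mul (r : ℕ) (x y : ℤ) : (x - y) * fcPs r x y = x ^ r - y ^ r :=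
  (Commute.all x y).mul_geom_sum₂ r

/-- a common prime factor of the two factors is `r` -/
lemma fcPs_prime {r : ℕ} {x y p : ℤ} (hp : Prime p) (hxy : IsCoprime x y) (h1 : p ∣ x - y)
    (h2 : p ∣ fcPs r x y) : p ∣ (r : ℤ) := by
  have h := (dvd_geom_sum₂_iff_of_dvd_sub h1).1 h2
  rcases hp.dvd_or_dvd h with h | h
  · exact h
  · exfalso
    have hy : p ∣ y := hp.dvd_of_dvd_pow h
    have hx : p ∣ x := by
      have := dvd_add h1 hy
      simpa using this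
    exact hp.not_isUnit (hxy.isUnit_of_dvd' hx hy)

/-- two integers without common prime factor are coprime -/
lemma fc_coprime {a b : ℤ} (_ha : a ≠ 0) (h : ∀ p : ℤ, Prime p → p ∣ a → ¬ p ∣ b) :
    IsCoprime a b := by
  rw [Int.isCoprime_iff_gcd_eq_one]
  by_contra hne
  obtain ⟨p, hp, hpd⟩ := Nat.exists_prime_and_dvd hne
  have hpd' : (p : ℤ) ∣ (Int.gcd a b : ℤ) := by exact_mod_cast hpd
  exact h p (Nat.prime_iff_prime_int.1 hp) (hpd'.trans (Int.gcd_dvd_left ..))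
    (hpd'.trans (Int.gcd_dvd_right ..))

/-- coprime factors of an `l`-th power -/
lemma fc_pow {a b : ℤ} {c l : ℕ} (ha : 0 < a) (hb : 0 < b) (hc : IsCoprime a b)
    (h : a * b = (c : ℤ) ^ l) : ∃ d : ℕ, a = (d : ℤ) ^ l := by
  lift a to ℕ using ha.le
  lift b to ℕ using hb.le
  have h1 : a * b = c ^ l := by exact_mod_cast h
  have h2 : Nat.Coprime a b := Nat.isCoprime_iff_coprime.1 hc
  obtain ⟨d, hd⟩ := exists_eq_pow_of_mul_eq_pow (by rw [Nat.isUnit_iff]; exact h2) h1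
  exact ⟨d, by exact_mod_cast hd⟩

/-- the cofactor is `r` times an integer coprime with `r` and `x - y`, if `r` divides `x - y` -/
lemma fcPs_split {r : ℕ} {x y : ℤ} (hr : r.Prime) (hr3 : 3 ≤ r) (hxy : IsCoprime x y)
    (h1 : (r : ℤ) ∣ x - y) (hpos : 0 < fcPs r x y) :
    ∃ P : ℤ, 0 < P ∧ fcPs r x y = r * P ∧ ¬ (r : ℤ) ∣ P ∧
      ∀ p : ℤ, Prime p → p ∣ P → ¬ p ∣ x - y := by
  have hrp : Prime (r : ℤ) := Nat.prime_iff_prime_int.1 hr
  have hr1 : Odd r := hr.odd_of_ne_two (by omega)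
  have hx : ¬ (r : ℤ) ∣ x := by
    intro hx
    have hy : (r : ℤ) ∣ y := by
      have := dvd_sub hx h1
      simpa using this
    exact hrp.not_isUnit (hxy.isUnit_of_dvd' hx hy)
  have he : emultiplicity (r : ℤ) (fcPs r x y) = 1 := emultiplicity_geom_sum₂_eq_one hrp hr1 h1 hx
  obtain ⟨P, hP⟩ : (r : ℤ) ∣ fcPs r x y := dvd_geom_sum₂_self h1
  have hr0 : (0 : ℤ) < r := by exact_mod_cast hr.pos
  have hP0 : 0 < P := by
    rw [hP] at hpos
    exact (pos_iff_pos_of_mul_pos hpos).1 hr0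
  have hrP : ¬ (r : ℤ) ∣ P := by
    rintro ⟨Q, hQ⟩
    have h2 : (r : ℤ) ^ 2 ∣ fcPs r x y := ⟨Q, by rw [hP, hQ]; ring⟩
    have h3 : ((2 : ℕ) : ℕ∞) ≤ emultiplicity (r : ℤ) (fcPs r x y) := le_emultiplicity_of_pow_dvd h2
    rw [he] at h3
    exact absurd h3 (by norm_num)
  refine ⟨P, hP0, hP, hrP, fun p hp hpP hpD => ?_⟩
  have h4 : p ∣ (r : ℤ) := fcPs_prime hp hxy hpD (hP ▸ hpP.mul_left _)
  have h5 : Associated p (r : ℤ) := (hp.dvd_prime_iff_associated hrp).1 h4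
  exact hrP (h5.symm.dvd.trans hpP)

/-- a high power of `r` cannot divide `v ^ k ± u ^ k` if `r` does not divide `k` -/
lemma fc_dvd {u v k r s : ℕ} {y : ℤ} (hr : r.Prime) (hr3 : 3 ≤ r) (hu : 1 ≤ u) (huv : u < v)
    (hc : Nat.Coprime u v) (hrk : ¬ r ∣ k) (hy : y ^ 2 = (u : ℤ) ^ (2 * k)) (hs : 1 ≤ s)
    (hvr : v ^ r < r ^ s) (hd : (r : ℤ) ^ s ∣ (v : ℤ) ^ k - y) : False := by
  have hrp : Prime (r : ℤ) := Nat.prime_iff_prime_int.1 hr
  have hr1 : Odd r := hr.odd_of_ne_two (by omega)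
  have h2 : (r : ℤ) ^ s ∣ (v : ℤ) ^ (2 * k) - (u : ℤ) ^ (2 * k) := by
    have : (v : ℤ) ^ (2 * k) - (u : ℤ) ^ (2 * k) = ((v : ℤ) ^ k - y) * ((v : ℤ) ^ k + y) := by
      rw [← hy]; ring
    rw [this]; exact hd.mul_right _
  have hrd : (r : ℤ) ∣ (v : ℤ) ^ (2 * k) - (u : ℤ) ^ (2 * k) :=
    (dvd_pow_self _ (by omega)).trans h2
  have hv : ¬ r ∣ v := by
    intro hv
    have h3 : (r : ℤ) ∣ (v : ℤ) ^ (2 * k) := by
      by_cases hk0 : k = 0
      · subst hk0; exact absurd (dvd_zero r) hrk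
      · exact (Int.natCast_dvd_natCast.2 hv).trans (dvd_pow_self _ (by omega))
    have h4 : (r : ℤ) ∣ (u : ℤ) ^ (2 * k) := by
      have := dvd_sub h3 hrd
      simpa using this
    have h5 : r ∣ u := Int.natCast_dvd_natCast.1 (hrp.dvd_of_dvd_pow h4)
    exact hr.one_lt.ne' (Nat.dvd_one.1 (hc ▸ Nat.dvd_gcd h5 hv))
  have hu' : ¬ r ∣ u := by
    intro hu'
    have h3 : (r : ℤ) ∣ (u : ℤ) ^ (2 * k) := by
      by_cases hk0 : k = 0
      · subst hk0; exact absurd (dvd_zero r) hrk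
      · exact (Int.natCast_dvd_natCast.2 hu').trans (dvd_pow_self _ (by omega))
    have h4 : (r : ℤ) ∣ (v : ℤ) ^ (2 * k) := by
      have := dvd_add hrd h3
      simpa using this
    exact hv (Int.natCast_dvd_natCast.1 (hrp.dvd_of_dvd_pow h4))
  have hf : ∀ w : ℕ, ¬ r ∣ w → (r : ℤ) ∣ (w : ℤ) ^ (r - 1) - 1 := by
    intro w hw
    have h6 : IsCoprime (w : ℤ) (r : ℤ) :=
      Nat.isCoprime_iff_coprime.2 ((Nat.Prime.coprime_iff_not_dvd hr).2 hw).symm
    exact (Int.modEq_iff_dvd.1 (Int.ModEq.pow_card_sub_one_eq_one hr h6).symm)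
  have hvv : (r : ℤ) ∣ (v : ℤ) ^ (r - 1) - (u : ℤ) ^ (r - 1) := by
    have := dvd_sub (hf v hv) (hf u hu')
    simpa using this
  have hrv : ¬ (r : ℤ) ∣ (v : ℤ) ^ (r - 1) :=
    fun h => hv (Int.natCast_dvd_natCast.1 (hrp.dvd_of_dvd_pow h))
  have hr2k : ¬ (r : ℤ) ∣ ((2 * k : ℕ) : ℤ) := by
    rw [Int.natCast_dvd_natCast]
    intro h
    rcases hr.dvd_mul.1 h with h | h
    · exact absurd (Nat.le_of_dvd (by norm_num) h) (by omega)
    · exact hrk h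
  have he := emultiplicity_pow_sub_pow_of_prime hrp hvv hrv hr2k
  have h7 : (r : ℤ) ^ s ∣ ((v : ℤ) ^ (r - 1)) ^ (2 * k) - ((u : ℤ) ^ (r - 1)) ^ (2 * k) := by
    rw [← pow_mul, ← pow_mul, mul_comm (r - 1), pow_mul, pow_mul _ (2 * k)]
    exact h2.trans (sub_dvd_pow_sub_pow _ _ _)
  have h8 : (r : ℤ) ^ s ∣ (v : ℤ) ^ (r - 1) - (u : ℤ) ^ (r - 1) := by
    have h9 := le_emultiplicity_of_pow_dvd h7
    rw [he] at h9
    exact pow_dvd_of_le_emultiplicity h9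
  have h10 : (u : ℤ) ^ (r - 1) < (v : ℤ) ^ (r - 1) := by
    have : u ^ (r - 1) < v ^ (r - 1) := Nat.pow_lt_pow_left huv (by omega)
    exact_mod_cast this
  have h11 := Int.le_of_dvd (by linarith) h8
  have h12 : (v : ℤ) ^ (r - 1) ≤ (v : ℤ) ^ r := by
    have : v ^ (r - 1) ≤ v ^ r := Nat.pow_le_pow_right (by omega) (by omega)
    exact_mod_cast this
  have h13 : (v : ℤ) ^ r < (r : ℤ) ^ s := by exact_mod_cast hvr
  have h14 : (0 : ℤ) ≤ (u : ℤ) ^ (r - 1) := by positivity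
  linarith

/-- Fermat -/
lemma fc_fermat {r : ℕ} (hr : r.Prime) {x y : ℤ} (h : (r : ℤ) ∣ x ^ r - y ^ r) :
    (r : ℤ) ∣ x - y := by
  have := Fact.mk hr
  have h1 : ((x ^ r - y ^ r : ℤ) : ZMod r) = 0 := (ZMod.intCast_zmod_eq_zero_iff_dvd _ _).2 h
  push_cast at h1
  rw [ZMod.pow_card, ZMod.pow_card] at h1
  exact (ZMod.intCast_zmod_eq_zero_iff_dvd _ _).1 (by push_cast; exact h1)

theorem fac : Stmt_Fac := by
  intro u v k l A r e he hu huv hc hu2 hv2 hk hr hr3 hl hl2 hvr hE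
  have hrp : Prime (r : ℤ) := Nat.prime_iff_prime_int.1 hr
  have hr1 : Odd r := hr.odd_of_ne_two (by omega)
  have hr0 : (0 : ℤ) < r := by exact_mod_cast hr.pos
  have huo : Odd (u : ℤ) := by
    have : Odd u := Nat.not_even_iff_odd.1 (fun h => hu2 h.two_dvd)
    exact_mod_cast this
  have hvo : Odd (v : ℤ) := by
    have : Odd v := Nat.not_even_iff_odd.1 (fun h => hv2 h.two_dvd)
    exact_mod_cast this
  have hcz : IsCoprime (v : ℤ) (u : ℤ) := Nat.isCoprime_iff_coprime.2 hc.symm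
  have heo : Odd e := by rcases he with rfl | rfl <;> decide
  have heu : IsUnit e := by rcases he with rfl | rfl <;> simp
  have her : ∀ n : ℕ, (-e * (u : ℤ) ^ n) ^ r = -e * (u : ℤ) ^ (r * n) := by
    intro n
    rw [mul_pow, ← pow_mul, mul_comm n r]
    congr 1
    rcases he with rfl | rfl
    · rw [hr1.neg_one_pow]
    · simp
  have her2 : ∀ n : ℕ, (-e * (u : ℤ) ^ n) ^ 2 = (u : ℤ) ^ (2 * n) := by
    intro n
    rw [mul_pow, ← pow_mul, mul_comm n 2]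
    rcases he with rfl | rfl <;> simp
  have hD : ∀ n : ℕ, (v : ℤ) ^ n - (-e * (u : ℤ) ^ n) = (v : ℤ) ^ n + e * (u : ℤ) ^ n := by
    intro n; ring
  have hcop : ∀ n : ℕ, IsCoprime ((v : ℤ) ^ n) (-e * (u : ℤ) ^ n) := by
    intro n
    have h1 : IsCoprime ((v : ℤ) ^ n) ((u : ℤ) ^ n) := hcz.pow
    refine (IsCoprime.mul_right ?_ h1)
    rcases he with rfl | rfl
    · exact isCoprime_one_right.neg_right
    · simpa using (isCoprime_one_right : IsCoprime ((v : ℤ) ^ n) 1)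
  have hDpos : ∀ n : ℕ, 1 ≤ n → 0 < (v : ℤ) ^ n + e * (u : ℤ) ^ n := by
    intro n hn
    have h1 : (u : ℤ) ^ n < (v : ℤ) ^ n := by
      have : u ^ n < v ^ n := Nat.pow_lt_pow_left huv (by omega)
      exact_mod_cast this
    have h2 : (0 : ℤ) ≤ (u : ℤ) ^ n := by positivity
    rcases he with rfl | rfl <;> linarith
  have hMul : ∀ n : ℕ, ((v : ℤ) ^ n + e * (u : ℤ) ^ n) * fcPs r ((v : ℤ) ^ n) (-e * (u : ℤ) ^ n) =
      (v : ℤ) ^ (r * n) + e * (u : ℤ) ^ (r * n) := by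
    intro n
    rw [← hD n, fcPs_mul, her, ← pow_mul, mul_comm n r, hD]
  have hPpos : ∀ n : ℕ, 1 ≤ n → 0 < fcPs r ((v : ℤ) ^ n) (-e * (u : ℤ) ^ n) := by
    intro n hn
    have h1 := hDpos (r * n) (Nat.mul_pos hr.pos hn)
    rw [← hMul n] at h1
    exact (pos_iff_pos_of_mul_pos h1).1 (hDpos n hn)
  have hEven : ∀ n : ℕ, (2 : ℤ) ∣ (v : ℤ) ^ n + e * (u : ℤ) ^ n := by
    intro n
    exact ((hvo.pow).add_odd (heo.mul huo.pow)).two_dvd
  set D : ℤ := (v : ℤ) ^ k + e * (u : ℤ) ^ k with hDd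
  set Y : ℤ := fcPs r ((v : ℤ) ^ k) (-e * (u : ℤ) ^ k) with hY
  have hDY : D * Y = 2 * (A : ℤ) ^ l := by rw [hDd, hY, hMul, hE]
  obtain ⟨D', hD'⟩ := hEven k
  rw [← hDd] at hD'
  have hDp : 0 < D := hDpos k hk
  have hD'p : 0 < D' := by linarith
  have hYp : 0 < Y := hPpos k hk
  by_cases hrD : (r : ℤ) ∣ D
  · right
    obtain ⟨P, hP0, hYP, hrP, hPD⟩ := fcPs_split hr hr3 (hcop k) (by rw [hD]; exact hrD) hYp
    rw [← hY] at hYP
    rw [hD, ← hDd] at hPD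
    -- `r` divides `A`, so `r ^ (l - 1)` divides `D`
    have hrA : (r : ℤ) ∣ A := by
      have h1 : (r : ℤ) ∣ 2 * (A : ℤ) ^ l := by rw [← hDY]; exact hrD.mul_right _
      rcases hrp.dvd_or_dvd h1 with h | h
      · exfalso
        have := Int.le_of_dvd (by norm_num) h
        have h3 : (3 : ℤ) ≤ r := by exact_mod_cast hr3
        linarith
      · exact hrp.dvd_of_dvd_pow h
    have hrl : (r : ℤ) ^ (l - 1) ∣ D := by
      have h1 : (r : ℤ) ^ l ∣ D * (r * P) := by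
        rw [← hYP, hDY]
        exact (pow_dvd_pow_of_dvd hrA l).mul_left _
      have h2 : (r : ℤ) ^ l = r ^ (l - 1) * r := by
        rw [← pow_succ]; congr 1; omega
      have h3 : (r : ℤ) ^ (l - 1) * r ∣ (D * P) * r := by
        rw [← h2]
        have : D * (r * P) = (D * P) * r := by ring
        rwa [this] at h1
      have h4 : (r : ℤ) ^ (l - 1) ∣ D * P := (mul_dvd_mul_iff_right hr0.ne').1 h3
      exact hrp.pow_dvd_of_dvd_mul_right _ hrP h4
    have hvr' : v ^ r < r ^ (l - 1) := by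
      have h1 : v ^ r < 2 ^ (l - 1) := by exact_mod_cast hvr
      exact h1.trans_le (Nat.pow_le_pow_left (by omega) _)
    have hrk : r ∣ k := by
      by_contra hrk
      exact fc_dvd hr hr3 hu huv hc hrk (her2 k) (by omega) hvr' (by rw [hD]; exact hrl)
    obtain ⟨k₂, hk₂⟩ := hrk
    have hk₂1 : 1 ≤ k₂ := by
      rcases Nat.eq_zero_or_pos k₂ with h | h
      · subst h; simp at hk₂; omega
      · exact h
    have hDD : D = ((v : ℤ) ^ k₂ + e * (u : ℤ) ^ k₂) *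
        fcPs r ((v : ℤ) ^ k₂) (-e * (u : ℤ) ^ k₂) := by
      rw [hMul, hDd, hk₂]
    have hrD1 : (r : ℤ) ∣ (v : ℤ) ^ k₂ - (-e * (u : ℤ) ^ k₂) := by
      apply fc_fermat hr
      rw [her, ← pow_mul, mul_comm k₂ r, hD, ← hk₂]
      exact hrD
    obtain ⟨Q, hQ0, hYQ, hrQ, hQD⟩ := fcPs_split hr hr3 (hcop k₂) hrD1 (hPpos k₂ hk₂1)
    rw [hD] at hrD1 hQD
    set D1 : ℤ := (v : ℤ) ^ k₂ + e * (u : ℤ) ^ k₂ with hD1
    have hD1p : 0 < D1 := hDpos k₂ hk₂1
    obtain ⟨D1', hD1'⟩ := hEven k₂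
    rw [← hD1] at hD1'
    have hD1'p : 0 < D1' := by linarith
    rw [hYQ] at hDD
    have hD'e : D' = D1' * (r * Q) := by
      have : 2 * D' = 2 * (D1' * (r * Q)) := by rw [← hD', hDD, hD1']; ring
      linarith
    -- the first power
    have hA1 : P * (r * D') = (A : ℤ) ^ l := by
      have : 2 * (P * (r * D')) = 2 * (A : ℤ) ^ l := by
        rw [← hDY, hYP, hD']; ring
      linarith
    have hc1 : IsCoprime P (r * D') := by
      refine fc_coprime hP0.ne' fun p hp hpP hpD => ?_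
      rcases hp.dvd_or_dvd hpD with h | h
      · exact hrP (((hp.dvd_prime_iff_associated hrp).1 h).symm.dvd.trans hpP)
      · exact hPD p hp hpP (hD' ▸ h.mul_left 2)
    obtain ⟨B₀, hB₀⟩ := fc_pow hP0 (by positivity) hc1 hA1
    obtain ⟨A1, hA1'⟩ := fc_pow (by positivity) hP0 hc1.symm (by rw [mul_comm]; exact hA1)
    have hA2 : Q * (r ^ 2 * D1') = (A1 : ℤ) ^ l := by
      rw [← hA1', hD'e]; ring
    have hc2 : IsCoprime Q (r ^ 2 * D1') := by
      refine fc_coprime hQ0.ne' fun p hp hpQ hpD => ?_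
      rcases hp.dvd_or_dvd hpD with h | h
      · exact hrQ (((hp.dvd_prime_iff_associated hrp).1 (hp.dvd_of_dvd_pow h)).symm.dvd.trans hpQ)
      · exact hQD p hp hpQ (hD1' ▸ h.mul_left 2)
    obtain ⟨B₁, hB₁⟩ := fc_pow hQ0 (by positivity) hc2 hA2
    refine ⟨k₂, B₀, B₁, hk₂1, hk₂, ?_, ?_, ?_⟩
    · rcases Nat.eq_zero_or_pos B₁ with h | h
      · exfalso
        rw [h, Nat.cast_zero, zero_pow (by omega)] at hB₁
        omega
      · exact h
    · rw [← hMul k, ← hDd, ← hY, hYP, hB₀]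
    · rw [hDD, hB₁]
  · left
    have hc1 : IsCoprime Y D' := by
      refine fc_coprime hYp.ne' fun p hp hpY hpD => ?_
      have h1 : p ∣ D := hD' ▸ hpD.mul_left 2
      have h2 : p ∣ (r : ℤ) := fcPs_prime hp (hcop k) (by rw [hD]; exact h1) hpY
      exact hrD (((hp.dvd_prime_iff_associated hrp).1 h2).symm.dvd.trans h1)
    have hA1 : Y * D' = (A : ℤ) ^ l := by
      have : 2 * (Y * D') = 2 * (A : ℤ) ^ l := by
        rw [← hDY, hD']; ring
      linarith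
    obtain ⟨B₀, hB₀⟩ := fc_pow hYp hD'p hc1 hA1
    refine ⟨B₀, ?_⟩
    rw [← hMul k, ← hDd, ← hY, ← hB₀]

end Pool.Agent.Work.MP_2738db_nt_C.helper17
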