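import Pool.Agent.Work.MP_2738db_nt_C.Interface
import Mathlib

/-!
Block XO2 of the COPRIME EXPONENTS theorem (MP_2738db): exponents `k` with an odd prime factor.
-/

set_option autoImplicit false

namespace Pool.Agent.Work.MP_2738db_nt_C.helper17

open Real

lemma x2_log {t : ℝ} (h : |t| ≤ 1 / 2) : |log (1 + t)| ≤ 2 * |t| := by
  have h1 := abs_le.1 h
  have hpos : 0 < 1 + t := by linarith [h1.1]
  rw [abs_le]
  constructor
  · have h2 := one_sub_inv_le_log_of_pos hpos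
    have h3 : 1 - (1 + t)⁻¹ = t / (1 + t) := by field_simp; ring
    rw [h3] at h2
    refine le_trans ?_ h2
    rw [le_div_iff₀ hpos]
    rcases le_total 0 t with ht | ht
    · rw [abs_of_nonneg ht]; nlinarith
    · rw [abs_of_nonpos ht]; nlinarith
  · have h2 := log_le_sub_one_of_pos hpos
    have := le_abs_self t
    have := abs_nonneg t
    linarith

/-- the logarithm of `v ^ n ± u ^ n` -/
lemma x2_F {u v : ℕ} {e U : ℝ} (he : e = 1 ∨ e = -1) (hu : 1 ≤ u) (huv : u < v) (hU : 1 ≤ U)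
    (hlog : 1 ≤ U * (log v - log u)) {n : ℕ} (hn : exp (-(n / U)) ≤ 1 / 2) :
    0 < (v : ℝ) ^ n + e * (u : ℝ) ^ n ∧
      |log ((v : ℝ) ^ n + e * (u : ℝ) ^ n) - n * log v| ≤ 2 * exp (-(n / U)) := by
  have hu0 : (0 : ℝ) < u := by exact_mod_cast hu
  have hv0 : (0 : ℝ) < v := by exact_mod_cast (by omega : 0 < v)
  set ρ : ℝ := ((u : ℝ) / v) ^ n with hρ
  have hρ0 : 0 < ρ := by positivity
  have hρ1 : ρ ≤ exp (-(n / U)) := by
    rw [← log_le_iff_le_exp hρ0, hρ, log_pow, log_div hu0.ne' hv0.ne']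
    have h1 : 1 / U ≤ log v - log u := by
      rw [div_le_iff₀ (by linarith)]; linarith
    have h2 : (n : ℝ) * (1 / U) ≤ n * (log v - log u) :=
      mul_le_mul_of_nonneg_left h1 (Nat.cast_nonneg n)
    have h3 : (n : ℝ) / U = n * (1 / U) := by ring
    rw [h3]
    linarith
  have hF : (v : ℝ) ^ n + e * (u : ℝ) ^ n = (v : ℝ) ^ n * (1 + e * ρ) := by
    have : (v : ℝ) ^ n * ρ = (u : ℝ) ^ n := by
      rw [hρ, div_pow]; field_simp
    rw [mul_add, mul_one]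
    linear_combination (-e) * this
  have habs : |e * ρ| = ρ := by
    rw [abs_mul, abs_of_pos hρ0]
    rcases he with rfl | rfl <;> simp
  have h1 : |e * ρ| ≤ 1 / 2 := by rw [habs]; exact hρ1.trans hn
  have h2 : 0 < 1 + e * ρ := by have := (abs_le.1 h1).1; linarith
  have hvn : (0 : ℝ) < (v : ℝ) ^ n := by positivity
  refine ⟨by rw [hF]; positivity, ?_⟩
  rw [hF, log_mul hvn.ne' h2.ne', log_pow, add_sub_cancel_left]
  refine (x2_log h1).trans ?_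
  rw [habs]
  linarith

/-- the numerical lemma -/
lemma x2_num {C₀ U L l r s κ : ℝ} (hC₀ : 1 ≤ C₀) (hU : 1 ≤ U) (hL : 1 ≤ L) (hs0 : 0 < s)
    (hs : s ≤ r ^ 2) (hl : 20 * C₀ * r ^ 2 * U ^ 4 * L ^ 2 < l) (hκ : 0 < κ)
    (h1 : l * log 2 ≤ s * κ * U)
    (h2 : κ / U ≤ 3 + C₀ * ((2 + s * κ * U / l) * U) * L ^ 2) : False := by
  have hU0 : 0 < U := by linarith
  obtain ⟨w, hw⟩ : ∃ w, w = κ / U := ⟨_, rfl⟩
  have hw0 : 0 < w := by rw [hw]; positivity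
  have hκw : κ = w * U := by rw [hw]; field_simp
  rw [← hw] at h2
  rw [hκw] at h1 h2
  have hL2 : 1 ≤ L ^ 2 := one_le_pow₀ hL
  have hU3 : U ^ 3 ≤ U ^ 4 := pow_le_pow_right₀ hU (by norm_num)
  have hQ : C₀ * s * U ^ 3 * L ^ 2 ≤ C₀ * r ^ 2 * U ^ 4 * L ^ 2 := by
    have : s * U ^ 3 ≤ r ^ 2 * U ^ 4 := mul_le_mul hs hU3 (by positivity) (by positivity)
    have h3 := mul_le_mul_of_nonneg_left this (by positivity : 0 ≤ C₀ * L ^ 2)
    nlinarith [h3]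
  have hQ0 : 0 < C₀ * s * U ^ 3 * L ^ 2 := by positivity
  have hl0 : 0 < l := by nlinarith
  have hlog : l / 2 ≤ l * log 2 := by
    have := log_two_gt_d9
    nlinarith
  have h3 : C₀ * ((2 + s * (w * U) * U / l) * U) * L ^ 2 =
      2 * C₀ * U * L ^ 2 + w * (C₀ * s * U ^ 3 * L ^ 2 / l) := by
    field_simp
  rw [h3] at h2
  have h4 : C₀ * s * U ^ 3 * L ^ 2 / l ≤ 1 / 20 := by
    rw [div_le_iff₀ hl0]; linarith
  have h5 : w * (C₀ * s * U ^ 3 * L ^ 2 / l) ≤ w * (1 / 20) :=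
    mul_le_mul_of_nonneg_left h4 hw0.le
  have h6 : 1 ≤ C₀ * U * L ^ 2 := by
    have : 1 ≤ C₀ * U := one_le_mul_of_one_le_of_one_le hC₀ hU
    exact one_le_mul_of_one_le_of_one_le this hL2
  have h7 : w ≤ 6 * (C₀ * U * L ^ 2) := by nlinarith
  have h8 : s * (w * U) * U ≤ 6 * (C₀ * s * U ^ 3 * L ^ 2) := by
    have := mul_le_mul_of_nonneg_left h7 (by positivity : 0 ≤ s * U * U)
    nlinarith [this]
  nlinarith

lemma x2_exp {X Y : ℝ} (h : exp (-X) ≤ 8 * exp (-Y)) : Y ≤ 3 + X := by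
  have h8 : (8 : ℝ) ≤ exp 3 := by
    have h1 : exp 3 = exp 1 ^ 3 := by rw [← exp_nat_mul]; norm_num
    rw [h1]
    have h2 : (2 : ℝ) ≤ exp 1 := by have := exp_one_gt_d9; linarith
    calc (8 : ℝ) = 2 ^ 3 := by norm_num
      _ ≤ exp 1 ^ 3 := pow_le_pow_left₀ (by norm_num) h2 3
  have h1 : exp (-X) ≤ exp (3 + -Y) := by
    rw [exp_add]
    exact h.trans (mul_le_mul_of_nonneg_right h8 (exp_pos _).le)
  have := exp_le_exp.1 h1
  linarith

/-- `v` does not divide `v ^ n ± u ^ n` -/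
lemma x2_ndvd {u v n : ℕ} {e : ℤ} (he : e = 1 ∨ e = -1) (hu : 1 ≤ u) (huv : u < v)
    (hc : Nat.Coprime u v) (hn : 1 ≤ n) : ¬ (v : ℤ) ∣ (v : ℤ) ^ n + e * (u : ℤ) ^ n := by
  intro h
  have h1 : (v : ℤ) ∣ e * (u : ℤ) ^ n := by
    have := dvd_sub h (dvd_pow_self (v : ℤ) (by omega : n ≠ 0))
    simpa using this
  have h2 : (v : ℤ) ∣ (u : ℤ) ^ n := by
    rcases he with rfl | rfl
    · simpa using h1
    · simpa using h1
  have h3 : v ∣ u ^ n := by exact_mod_cast h2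
  have h4 : v ∣ 1 := by
    have h5 : Nat.Coprime v (u ^ n) := (hc.symm).pow_right n
    have := Nat.dvd_gcd dvd_rfl h3
    rwa [h5] at this
  have := Nat.le_of_dvd (by norm_num) h4
  omega

lemma x2_r {r : ℝ} (hr : 3 ≤ r) : r ≤ r ^ 2 ∧ r - 1 ≤ r ^ 2 ∧ (r - 1) * (r - 1) ≤ r ^ 2 := by
  refine ⟨by nlinarith, by nlinarith, by nlinarith⟩

/-- the size of `l` -/
lemma x2_pre {C₀ U L l r : ℝ} (hC₀ : 1 ≤ C₀) (hU : 1 ≤ U) (hL : 1 ≤ L) (hr : 3 ≤ r)
    (hCl : 20 * C₀ * r ^ 2 * U ^ 4 * L ^ 2 < l) :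
    20 * (r * U) < l ∧ C₀ * U * L ≤ l ∧ ∀ s κ : ℝ, 0 < s → s ≤ r ^ 2 → l * log 2 ≤ s * κ * U →
      exp (-(κ / U)) ≤ 1 / 2 := by
  have hU0 : 0 < U := by linarith
  have hL2 : 1 ≤ L ^ 2 := one_le_pow₀ hL
  have hU4 : U ≤ U ^ 4 := le_self_pow₀ hU (by norm_num)
  have hU24 : U ^ 2 ≤ U ^ 4 := pow_le_pow_right₀ hU (by norm_num)
  have hr2 : r ≤ r ^ 2 := by nlinarith
  obtain ⟨Q, hQ⟩ : ∃ Q, Q = r ^ 2 * U ^ 4 * L ^ 2 := ⟨_, rfl⟩
  have hQ0 : 0 < Q := by rw [hQ]; positivity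
  have hCQ : 20 * C₀ * r ^ 2 * U ^ 4 * L ^ 2 = 20 * (C₀ * Q) := by rw [hQ]; ring
  rw [hCQ] at hCl
  have hQC : Q ≤ C₀ * Q := le_mul_of_one_le_left hQ0.le hC₀
  have hP0 : 0 < r ^ 2 * U ^ 4 := by positivity
  have hPQ : r ^ 2 * U ^ 4 ≤ Q := by rw [hQ]; exact le_mul_of_one_le_right hP0.le hL2
  have hrU : r * U ≤ r ^ 2 * U ^ 4 := mul_le_mul hr2 hU4 hU0.le (by positivity)
  have hUP : U ≤ r ^ 2 * U ^ 4 := by
    have : U ≤ r * U := le_mul_of_one_le_left hU0.le (by linarith)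
    linarith
  have hUL : U * L ≤ Q := by
    rw [hQ]
    exact mul_le_mul hUP (le_self_pow₀ hL (by norm_num)) (by linarith) hP0.le
  refine ⟨by linarith, ?_, ?_⟩
  · have := mul_le_mul_of_nonneg_left hUL (by linarith : 0 ≤ C₀)
    have h0 : 0 < C₀ * Q := by positivity
    linarith
  · intro s κ hs0 hs h
    have h1 := log_two_gt_d9
    have h2 : log 2 ≤ κ / U := by
      rw [le_div_iff₀ hU0]
      by_contra hcon
      push Not at hcon
      have h3 : s * κ * U ≤ s * (log 2 * U) * U := by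
        have : s * κ ≤ s * (log 2 * U) := mul_le_mul_of_nonneg_left hcon.le hs0.le
        exact mul_le_mul_of_nonneg_right this hU0.le
      have h4 : s * (log 2 * U) * U ≤ (r ^ 2 * U ^ 2) * log 2 := by
        have h5 : s * U ^ 2 ≤ r ^ 2 * U ^ 2 := mul_le_mul_of_nonneg_right hs (by positivity)
        have h6 := mul_le_mul_of_nonneg_right h5 (by linarith : 0 ≤ log 2)
        have h7 : s * (log 2 * U) * U = s * U ^ 2 * log 2 := by ring
        rw [h7]; exact h6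
      have h5 : l * log 2 ≤ (r ^ 2 * U ^ 2) * log 2 := by linarith
      have h6 : l ≤ r ^ 2 * U ^ 2 := le_of_mul_le_mul_right h5 (by linarith)
      have h7 : r ^ 2 * U ^ 2 ≤ r ^ 2 * U ^ 4 := mul_le_mul_of_nonneg_left hU24 (by positivity)
      linarith
    have h3 : exp (-(κ / U)) ≤ exp (-log 2) := exp_le_exp.2 (by linarith)
    have h4 : exp (-log 2) = 1 / 2 := by rw [exp_neg, exp_log (by norm_num)]; norm_num
    linarith

theorem xo2 : Stmt_Tlc → Stmt_Fac → Stmt_Xo2 := by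
  rintro ⟨C₀, hC₀, hT⟩ hFac
  refine ⟨20 * C₀, by linarith, ?_⟩
  intro u v k l A r U hu huv hc hu2 hv2 hk hr hr3 hrk hl hA hU hvU hlog hCl hEq
  have hu0 : (0 : ℝ) < u := by exact_mod_cast hu
  have hv0 : (0 : ℝ) < v := by exact_mod_cast (by omega : 0 < v)
  have hv1 : (1 : ℝ) ≤ v := by exact_mod_cast (by omega : 1 ≤ v)
  have hlv : 0 ≤ log v := log_nonneg hv1
  have hl2 : 2 ≤ l := hl.two_le
  have hlR : (2 : ℝ) ≤ l := by exact_mod_cast hl2
  have hrR : (3 : ℝ) ≤ r := by exact_mod_cast hr3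
  have hL : 1 ≤ 1 + log (l : ℝ) := by
    have := log_nonneg (by linarith : (1 : ℝ) ≤ l)
    linarith
  obtain ⟨L, hLd⟩ : ∃ L, L = 1 + log (l : ℝ) := ⟨_, rfl⟩
  rw [← hLd] at hL hCl
  have hL2 : 1 ≤ L ^ 2 := one_le_pow₀ hL
  have hU0 : 0 < U := by linarith
  obtain ⟨k₁, hk₁⟩ := hrk
  have hk₁1 : 1 ≤ k₁ := by
    rcases Nat.eq_zero_or_pos k₁ with h | h
    · subst h; simp at hk₁; omega
    · exact h
  have hk₁R : (1 : ℝ) ≤ k₁ := by exact_mod_cast hk₁1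
  -- the size of `l`
  obtain ⟨hl20, hCBl, hexp⟩ := x2_pre hC₀ hU hL hrR hCl
  -- the equation with a sign
  obtain ⟨e, he, hE⟩ : ∃ e : ℤ, (e = 1 ∨ e = -1) ∧
      (v : ℤ) ^ (r * k₁) + e * (u : ℤ) ^ (r * k₁) = 2 * (A : ℤ) ^ l := by
    rcases hEq with h | h
    · refine ⟨1, Or.inl rfl, ?_⟩
      rw [← hk₁, one_mul]
      exact_mod_cast h
    · refine ⟨-1, Or.inr rfl, ?_⟩
      rw [← hk₁]
      have h1 : (v : ℤ) ^ k = (u : ℤ) ^ k + 2 * (A : ℤ) ^ l := by exact_mod_cast h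
      rw [h1]; ring
  obtain ⟨E, hEd⟩ : ∃ E : ℝ, E = (e : ℝ) := ⟨_, rfl⟩
  have hE1 : E = 1 ∨ E = -1 := by
    rcases he with h | h
    · left; rw [hEd, h]; norm_num
    · right; rw [hEd, h]; norm_num
  -- `l log 2 ≤ r k₁ U`
  have hlk : (l : ℝ) * log 2 ≤ r * k₁ * U := by
    have h1 : 2 * (A : ℝ) ^ l = (v : ℝ) ^ (r * k₁) + E * (u : ℝ) ^ (r * k₁) := by
      rw [hEd]; exact_mod_cast hE.symm
    have h2 : (u : ℝ) ^ (r * k₁) ≤ (v : ℝ) ^ (r * k₁) :=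
      pow_le_pow_left₀ hu0.le (by exact_mod_cast huv.le) _
    have h3 : (0 : ℝ) ≤ (u : ℝ) ^ (r * k₁) := by positivity
    have h4 : (A : ℝ) ^ l ≤ (v : ℝ) ^ (r * k₁) := by
      rcases hE1 with h | h <;> rw [h] at h1 <;> linarith
    have h5 : (2 : ℝ) ^ l ≤ (v : ℝ) ^ (r * k₁) :=
      (pow_le_pow_left₀ (by norm_num) (by exact_mod_cast hA) l).trans h4
    have h6 := log_le_log (by positivity) h5
    rw [log_pow, log_pow] at h6
    push_cast at h6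
    have h7 : (r : ℝ) * k₁ * log v ≤ r * k₁ * U :=
      mul_le_mul_of_nonneg_left hvU (by positivity)
    linarith
  have hvr : (v : ℝ) ^ r < 2 ^ (l - 1) := by
    rw [← log_lt_log_iff (by positivity) (by positivity), log_pow, log_pow,
      Nat.cast_sub (by omega), Nat.cast_one]
    have h1 : (r : ℝ) * log v ≤ r * U := mul_le_mul_of_nonneg_left hvU (by positivity)
    have h2 := log_two_gt_d9
    have h3 : 3 ≤ (r : ℝ) * U := by nlinarith
    nlinarith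
  have hl1 : (1 : ℝ) ≤ l := by linarith
  have hlpos : (0 : ℝ) < l := by linarith
  have hr1n : ((r - 1 : ℕ) : ℝ) = r - 1 := by
    rw [Nat.cast_sub (by omega), Nat.cast_one]
  have hvY : 2 ≤ v := by omega
  rcases hFac u v k₁ l A r e he hu huv hc hu2 hv2 hk₁1 hr hr3 hl hl2 hvr hE with
    ⟨B₀, hB⟩ | ⟨k₂, B₀, B₁, hk₂1, hk₂, hB₁1, hB0, hB1⟩
  · -- case 1
    have hex1 : exp (-((k₁ : ℝ) / U)) ≤ 1 / 2 :=
      hexp r k₁ (by linarith) (x2_r hrR).1 (by linarith)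
    have hex2 : exp (-(((r * k₁ : ℕ) : ℝ) / U)) ≤ exp (-((k₁ : ℝ) / U)) := by
      apply exp_le_exp.2
      rw [neg_le_neg_iff]
      apply div_le_div_of_nonneg_right _ hU0.le
      push_cast
      nlinarith
    obtain ⟨hF1, hF1'⟩ := x2_F hE1 hu huv hU hlog hex1
    obtain ⟨hF2, hF2'⟩ := x2_F hE1 hu huv hU hlog (hex2.trans hex1)
    have hBR : (v : ℝ) ^ (r * k₁) + E * (u : ℝ) ^ (r * k₁) =
        ((v : ℝ) ^ k₁ + E * (u : ℝ) ^ k₁) * (B₀ : ℝ) ^ l := by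
      rw [hEd]; exact_mod_cast hB
    have hB₀1 : 1 ≤ B₀ := by
      rcases Nat.eq_zero_or_pos B₀ with h | h
      · exfalso
        rw [h, Nat.cast_zero, zero_pow (by omega), mul_zero] at hBR
        linarith
      · exact h
    have hB₀R : (1 : ℝ) ≤ B₀ := by exact_mod_cast hB₀1
    have hBpos : (0 : ℝ) < (B₀ : ℝ) ^ l := by positivity
    rw [hBR, log_mul hF1.ne' hBpos.ne', log_pow] at hF2'
    have e1 := abs_le.1 hF1'
    have e2 := abs_le.1 hF2'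
    push_cast at e2 hex2
    have hΛ : |(l : ℝ) * log B₀ - (r - 1) * k₁ * log v| ≤ 4 * exp (-((k₁ : ℝ) / U)) := by
      rw [abs_le]; constructor <;> linarith [e1.1, e1.2, e2.1, e2.2]
    have hA' : log (B₀ : ℝ) ≤ 2 + r * k₁ * U / l := by
      have h1 := (abs_le.1 hΛ).2
      have h2 : (r - 1) * (k₁ : ℝ) * log v ≤ r * k₁ * U := by
        have h3 : (r - 1) * (k₁ : ℝ) ≤ r * k₁ := mul_le_mul_of_nonneg_right (by linarith) (by positivity)
        exact mul_le_mul h3 hvU hlv (by positivity)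
      have h3 : (l : ℝ) * log B₀ ≤ r * k₁ * U + 2 := by linarith
      have h4 : (2 + r * k₁ * U / l) * l = 2 * l + (r : ℝ) * k₁ * U := by field_simp
      have h5 : log (B₀ : ℝ) * l ≤ (2 + r * k₁ * U / l) * l := by rw [h4]; linarith
      exact le_of_mul_le_mul_right h5 hlpos
    have hne : B₀ ^ l ≠ 1 ^ l * v ^ ((r - 1) * k₁) := by
      intro h
      apply x2_ndvd he hu huv hc (Nat.mul_pos hr.pos hk₁1)
      rw [hB]
      have h1 : ((B₀ : ℤ)) ^ l = (v : ℤ) ^ ((r - 1) * k₁) := by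
        rw [one_pow, one_mul] at h; exact_mod_cast h
      rw [h1]
      exact (dvd_pow_self (v : ℤ) (Nat.mul_pos (by omega) hk₁1).ne').mul_left _
    have hK1 : 1 ≤ (r - 1) * k₁ := Nat.mul_pos (by omega) hk₁1
    have hKl : (((r - 1) * k₁ : ℕ) : ℝ) ≤ (2 + r * k₁ * U / l) * l := by
      have h4 : (2 + r * k₁ * U / l) * l = 2 * l + (r : ℝ) * k₁ * U := by field_simp
      rw [h4]
      push_cast
      rw [hr1n]
      have : (r : ℝ) * k₁ ≤ r * k₁ * U := le_mul_of_one_le_right (by positivity) hU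
      nlinarith
    have hA1 : 1 ≤ 2 + (r : ℝ) * k₁ * U / l := by
      have : 0 ≤ (r : ℝ) * k₁ * U / l := by positivity
      linarith
    have hmain := hT B₀ 1 v ((r - 1) * k₁) l (2 + r * k₁ * U / l) U hl hB₀1 le_rfl hvY hK1 hA1 hU
      hA' (by rw [Nat.cast_one, log_one]; linarith) hvU hKl (by rw [← hLd]; exact hCBl) hne
    rw [Nat.cast_one, log_one, sub_zero, Nat.cast_mul, hr1n, ← hLd] at hmain
    have hfin : exp (-(C₀ * ((2 + r * k₁ * U / l) * U) * L ^ 2)) ≤ 8 * exp (-((k₁ : ℝ) / U)) := by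
      have := exp_pos (-((k₁ : ℝ) / U))
      linarith
    exact x2_num (r := (r : ℝ)) (s := (r : ℝ)) hC₀ hU hL (by linarith) (x2_r hrR).1 hCl
      (by linarith) hlk (x2_exp hfin)
  · -- case 2
    have hk₂R : (1 : ℝ) ≤ k₂ := by exact_mod_cast hk₂1
    have hk₁k₂ : (k₁ : ℝ) = r * k₂ := by rw [hk₂]; push_cast; ring
    have hlk2 : (l : ℝ) * log 2 ≤ r ^ 2 * k₂ * U := by
      have : (r : ℝ) ^ 2 * k₂ * U = r * k₁ * U := by rw [hk₁k₂]; ring
      rw [this]; exact hlk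
    have hex0 : exp (-((k₂ : ℝ) / U)) ≤ 1 / 2 :=
      hexp (r ^ 2) k₂ (by positivity) le_rfl hlk2
    have hex1 : exp (-((k₁ : ℝ) / U)) ≤ exp (-((k₂ : ℝ) / U)) := by
      apply exp_le_exp.2
      rw [neg_le_neg_iff]
      apply div_le_div_of_nonneg_right _ hU0.le
      rw [hk₁k₂]
      nlinarith
    have hex2 : exp (-(((r * k₁ : ℕ) : ℝ) / U)) ≤ exp (-((k₁ : ℝ) / U)) := by
      apply exp_le_exp.2
      rw [neg_le_neg_iff]
      apply div_le_div_of_nonneg_right _ hU0.le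
      push_cast
      nlinarith
    obtain ⟨hF0, hF0'⟩ := x2_F hE1 hu huv hU hlog hex0
    obtain ⟨hF1, hF1'⟩ := x2_F hE1 hu huv hU hlog (hex1.trans hex0)
    obtain ⟨hF2, hF2'⟩ := x2_F hE1 hu huv hU hlog ((hex2.trans hex1).trans hex0)
    have hr0 : (0 : ℝ) < r := by linarith
    have hBR0 : (v : ℝ) ^ (r * k₁) + E * (u : ℝ) ^ (r * k₁) =
        ((v : ℝ) ^ k₁ + E * (u : ℝ) ^ k₁) * (r * (B₀ : ℝ) ^ l) := by
      rw [hEd]; exact_mod_cast hB0
    have hBR1 : (v : ℝ) ^ k₁ + E * (u : ℝ) ^ k₁ =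
        ((v : ℝ) ^ k₂ + E * (u : ℝ) ^ k₂) * (r * (B₁ : ℝ) ^ l) := by
      rw [hEd]; exact_mod_cast hB1
    have hB₀1 : 1 ≤ B₀ := by
      rcases Nat.eq_zero_or_pos B₀ with h | h
      · exfalso
        rw [h, Nat.cast_zero, zero_pow (by omega), mul_zero, mul_zero] at hBR0
        linarith
      · exact h
    have hB₀R : (1 : ℝ) ≤ B₀ := by exact_mod_cast hB₀1
    have hB₁R : (1 : ℝ) ≤ B₁ := by exact_mod_cast hB₁1
    have hBpos0 : (0 : ℝ) < (B₀ : ℝ) ^ l := by positivity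
    have hBpos1 : (0 : ℝ) < (B₁ : ℝ) ^ l := by positivity
    have hlogr : 0 ≤ log (r : ℝ) := log_nonneg (by linarith)
    have hl0 : log ((v : ℝ) ^ (r * k₁) + E * (u : ℝ) ^ (r * k₁)) =
        log ((v : ℝ) ^ k₁ + E * (u : ℝ) ^ k₁) + (log r + l * log B₀) := by
      rw [hBR0, log_mul hF1.ne' (by positivity), log_mul hr0.ne' hBpos0.ne', log_pow]
    have hl1' : log ((v : ℝ) ^ k₁ + E * (u : ℝ) ^ k₁) =
        log ((v : ℝ) ^ k₂ + E * (u : ℝ) ^ k₂) + (log r + l * log B₁) := by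
      rw [hBR1, log_mul hF0.ne' (by positivity), log_mul hr0.ne' hBpos1.ne', log_pow]
    rw [hl0] at hF2'
    have e0 := abs_le.1 hF0'
    have e1 := abs_le.1 hF1'
    have e2 := abs_le.1 hF2'
    push_cast at e2 hex2
    have hKreal : ((r : ℝ) - 1) * ((r - 1) * k₂) = r * k₁ - 2 * k₁ + k₂ := by
      rw [hk₁k₂]; ring
    have hΛ : |(l : ℝ) * (log B₀ - log B₁) - (r - 1) * ((r - 1) * k₂) * log v| ≤
        8 * exp (-((k₂ : ℝ) / U)) := by
      rw [hKreal, abs_le]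
      constructor <;> linarith [e0.1, e0.2, e1.1, e1.2, e2.1, e2.2]
    have h4 : (2 + r ^ 2 * k₂ * U / l) * l = 2 * l + (r : ℝ) ^ 2 * k₂ * U := by field_simp
    have hrk₁ : (r : ℝ) * k₁ * U = r ^ 2 * k₂ * U := by rw [hk₁k₂]; ring
    have hA0 : log (B₀ : ℝ) ≤ 2 + r ^ 2 * k₂ * U / l := by
      have h2 : (r - 1) * (k₁ : ℝ) * log v ≤ r * k₁ * U := by
        have h3 : (r - 1) * (k₁ : ℝ) ≤ r * k₁ := mul_le_mul_of_nonneg_right (by linarith) (by positivity)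
        exact mul_le_mul h3 hvU hlv (by positivity)
      have h3 : (l : ℝ) * log B₀ ≤ r ^ 2 * k₂ * U + 2 := by
        rw [← hrk₁]
        linarith [e1.1, e1.2, e2.1, e2.2]
      have h5 : log (B₀ : ℝ) * l ≤ (2 + r ^ 2 * k₂ * U / l) * l := by rw [h4]; linarith
      exact le_of_mul_le_mul_right h5 hlpos
    have hA1 : log (B₁ : ℝ) ≤ 2 + r ^ 2 * k₂ * U / l := by
      have h2 : (r - 1) * (k₂ : ℝ) * log v ≤ r ^ 2 * k₂ * U := by
        have h3 : (r - 1) * (k₂ : ℝ) ≤ r ^ 2 * k₂ := mul_le_mul_of_nonneg_right (x2_r hrR).2.1 (by positivity)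
        exact mul_le_mul h3 hvU hlv (by positivity)
      have h3 : (l : ℝ) * log B₁ ≤ r ^ 2 * k₂ * U + 2 := by
        have h6 : (l : ℝ) * log B₁ = log ((v : ℝ) ^ k₁ + E * (u : ℝ) ^ k₁) -
            log ((v : ℝ) ^ k₂ + E * (u : ℝ) ^ k₂) - log r := by rw [hl1']; ring
        have h7 : (k₁ : ℝ) * log v = r * k₂ * log v := by rw [hk₁k₂]
        linarith [e0.1, e0.2, e1.1, e1.2]
      have h5 : log (B₁ : ℝ) * l ≤ (2 + r ^ 2 * k₂ * U / l) * l := by rw [h4]; linarith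
      exact le_of_mul_le_mul_right h5 hlpos
    have hne : B₀ ^ l ≠ B₁ ^ l * v ^ ((r - 1) * ((r - 1) * k₂)) := by
      intro h
      apply x2_ndvd he hu huv hc (Nat.mul_pos hr.pos hk₁1)
      rw [hB0]
      have h1 : ((B₀ : ℤ)) ^ l = (B₁ : ℤ) ^ l * (v : ℤ) ^ ((r - 1) * ((r - 1) * k₂)) := by
        exact_mod_cast h
      rw [h1]
      have h2 : (v : ℤ) ∣ (v : ℤ) ^ ((r - 1) * ((r - 1) * k₂)) :=
        dvd_pow_self (v : ℤ) (Nat.mul_pos (by omega) (Nat.mul_pos (by omega) hk₂1)).ne'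
      exact ((h2.mul_left _).mul_left _).mul_left _
    have hK1 : 1 ≤ (r - 1) * ((r - 1) * k₂) :=
      Nat.mul_pos (by omega) (Nat.mul_pos (by omega) hk₂1)
    have hKl : (((r - 1) * ((r - 1) * k₂) : ℕ) : ℝ) ≤ (2 + r ^ 2 * k₂ * U / l) * l := by
      rw [h4]
      push_cast
      rw [hr1n]
      have h6 : (r : ℝ) ^ 2 * k₂ ≤ r ^ 2 * k₂ * U := le_mul_of_one_le_right (by positivity) hU
      have h7 : ((r : ℝ) - 1) * ((r - 1) * k₂) ≤ r ^ 2 * k₂ := by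
        rw [← mul_assoc]
        exact mul_le_mul_of_nonneg_right (x2_r hrR).2.2 (by positivity)
      linarith
    have hA' : 1 ≤ 2 + (r : ℝ) ^ 2 * k₂ * U / l := by
      have : 0 ≤ (r : ℝ) ^ 2 * k₂ * U / l := by positivity
      linarith
    have hmain := hT B₀ B₁ v ((r - 1) * ((r - 1) * k₂)) l (2 + r ^ 2 * k₂ * U / l) U hl hB₀1 hB₁1
      hvY hK1 hA' hU hA0 hA1 hvU hKl (by rw [← hLd]; exact hCBl) hne
    rw [Nat.cast_mul, Nat.cast_mul, hr1n, ← hLd] at hmain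
    exact x2_num (r := (r : ℝ)) (s := (r : ℝ) ^ 2) hC₀ hU hL (by positivity) le_rfl hCl
      (by linarith) hlk2 (x2_exp (hmain.trans hΛ))

end Pool.Agent.Work.MP_2738db_nt_C.helper17
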